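import Pool.Agent.H26.Achieve2

set_option autoImplicit false

namespace Pool.Agent.Results.MP_1e50ba_an.Cantor

open Pool.Agent.H26.Achieve

theorem result :
    Nonempty ({s : ℝ | ∃ A : Set ℕ, (∀ n ∈ A, 1 ≤ n) ∧
      s = ∑' n : A, (if Odd (n : ℕ) then 1 / (2 : ℝ) ^ (n : ℕ) else 1 / ((2 : ℝ) ^ (n : ℕ) + 1))}
        ≃ₜ cantorSet) := by
  have e : ∀ n : ℕ, (1 / 4 : ℝ) ^ n / 2 ≤ h n - 1 / ((2 : ℝ) ^ n + 1) ∧
      h n - 1 / ((2 : ℝ) ^ n + 1) ≤ (1 / 4 : ℝ) ^ n := by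
    intro n
    have h1 : (1 : ℝ) ≤ 2 ^ n := one_le_pow₀ (by norm_num)
    have h2 : (1 / 4 : ℝ) ^ n = 1 / (2 ^ n * 2 ^ n) := by
      rw [← mul_pow, one_div_pow]; norm_num
    have h3 : h n - 1 / ((2 : ℝ) ^ n + 1) = 1 / (2 ^ n * (2 ^ n + 1)) := by
      unfold h; rw [one_div_pow]; field_simp; ring
    rw [h2, h3]
    constructor
    · rw [div_div]
      exact one_div_le_one_div_of_le (by positivity) (by nlinarith)
    · exact one_div_le_one_div_of_le (by positivity) (by nlinarith)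
  have e0 : ∀ n : ℕ, 1 / (2 : ℝ) ^ n = h n := fun n => by unfold h; rw [one_div_pow]
  refine cantor (fun n => if Odd n then 1 / (2 : ℝ) ^ n else 1 / ((2 : ℝ) ^ n + 1)) (4 / 3)
    (1 / 10) (1 / 4) (by norm_num) (by norm_num) (by norm_num) (by norm_num) (fun n => ?_)
    (fun n => ?_) ?_
  · split_ifs <;> positivity
  · have h1 := e n
    have h2 : (0 : ℝ) < (1 / 4) ^ n := by positivity
    rw [pow_succ, abs_le]
    split_ifs
    · rw [e0]; constructor <;> linarith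
    · constructor <;> linarith [h1.1, h1.2]
  · intro r hs hr n
    obtain ⟨m, h1, h2, hm⟩ : ∃ m, n ≤ m ∧ m ≤ n + 1 ∧ Odd m := by
      rcases Nat.even_or_odd n with hn | hn
      · exact ⟨n + 1, by omega, le_rfl, hn.add_one⟩
      · exact ⟨n, le_rfl, by omega, hn⟩
    refine ⟨m, h1, h2, ?_⟩
    have o1 : ¬ Odd (m + 1) := Nat.not_odd_iff_even.mpr hm.add_one
    have o2 : Odd (m + 1 + 1) := hm.add_one.add_one
    have s1 := hs (m + 1)
    have s2 := hs (m + 1 + 1)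
    simp only [o1, o2, if_true, if_false, e0] at s1 s2
    simp only [hm, if_true, e0]
    have a1 := (e (m + 1)).1
    have a2 := (abs_le.mp (hr (m + 1 + 1 + 1))).2
    have a3 := h_succ m
    have a4 := h_succ (m + 1)
    have a5 := h_succ (m + 1 + 1)
    have h2 : (0 : ℝ) < (1 / 4) ^ m := by positivity
    rw [pow_succ] at a1
    rw [pow_succ, pow_succ, pow_succ] at a2
    linarith

end Pool.Agent.Results.MP_1e50ba_an.Cantor
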